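import Pool.Agent.Helper18.PB.Defs

/-!
# MP_b9cb57 packet A4: a full cycle through the `M + 1` directions
-/

set_option autoImplicit false

namespace Pool.Agent.Helper62.PB

open Pool.Agent.Helper18.PB

universe u

/-- the coefficient of direction `k` before step `j` -/
noncomputable def coef (θ n l : ℝ) (j k : ℕ) : ℝ :=
  if k < j then θ / (32 * n) * l ^ (j - 1) else θ * l ^ j

theorem coef_nonneg {θ n l : ℝ} (hθ : 0 < θ) (hn : 0 < n) (hl : 0 < l) (j k : ℕ) :
    0 ≤ coef θ n l j k := by
  unfold coef
  split_ifs <;> positivity

theorem coef_succ {θ n l : ℝ} {j k : ℕ} (h : k ≠ j) :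
    coef θ n l (j + 1) k = l * coef θ n l j k := by
  unfold coef
  rcases lt_or_gt_of_ne h with h1 | h1
  · rw [if_pos (by omega), if_pos h1]
    obtain ⟨i, rfl⟩ : ∃ i, j = i + 1 := ⟨j - 1, by omega⟩
    simp only [Nat.add_sub_cancel]
    ring
  · rw [if_neg (by omega), if_neg (by omega)]
    ring

theorem a4 (hGD : GD.{u}) : GCyc.{u} := by
  intro X _ _ _ M f g x e θ σ N hx he hθ hσ hσ1 hN hmain
  have hn : (0 : ℝ) < N := by exact_mod_cast hN
  set l : ℝ := σ / (9 * (N : ℝ) ^ 2) with hl
  set a : ℝ := 6 / (N : ℝ) ^ 2 with ha
  have hlpos : 0 < l := by positivity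
  have hapos : 0 < a := by positivity
  have hn1 : (1 : ℝ) ≤ N := by exact_mod_cast hN
  have hl1 : l ≤ 1 := by
    rw [hl, div_le_one (by positivity)]
    nlinarith
  set Cc : ℝ := 26 * 54 ^ M * (e / θ) / σ ^ (M + 1) with hCc
  have hCc0 : 0 ≤ Cc := by positivity
  have key : ∀ j : ℕ, j ≤ M + 1 → ∃ (g' ω : Fin (M + 1) → X →L[ℝ] ℝ) (x' : X)
      (t : Fin (M + 1) → ℝ), ‖x'‖ ≤ 1 ∧ (∀ k, 0 ≤ t k ∧ t k ≤ θ / 4) ∧
      (∀ k, ‖ω k‖ ≤ Cc) ∧ (∀ k, ‖g' k - g k‖ ≤ Cc) ∧ ‖x' - x‖ ≤ j * σ ∧
      (∀ k, j ≤ k.val → g' k = g k ∧ t k = 0) ∧
      ∀ y : X, ‖y‖ ≤ 1 →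
        (f + ∑ k, t k • (g k - ω k)) (y - x')
          + ∑ k : Fin (M + 1), coef θ N l j k.val * |g' k (y - x')| ≤ e * a ^ j := by
    intro j
    induction j with
    | zero =>
      intro _
      refine ⟨g, 0, x, 0, hx, fun k => ⟨le_rfl, by simp only [Pi.zero_apply]; positivity⟩,
        fun k => by simpa using hCc0, fun k => by simpa using hCc0, by simp,
        fun k _ => ⟨rfl, rfl⟩, ?_⟩
      intro y hy
      have h1 := hmain y hy
      have h2 : (f + ∑ k, (0 : Fin (M + 1) → ℝ) k • (g k - (0 : Fin (M + 1) → X →L[ℝ] ℝ) k)) = f := by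
        simp
      rw [h2, pow_zero, mul_one]
      have h3 : ∑ k : Fin (M + 1), coef θ N l 0 k.val * |g k (y - x)| =
          θ * ∑ k, |g k (y - x)| := by
        rw [Finset.mul_sum]
        refine Finset.sum_congr rfl fun k _ => ?_
        unfold coef
        rw [if_neg (by omega), pow_zero, mul_one]
      rw [h3]; exact h1
    | succ j ih =>
      intro hj
      obtain ⟨g', ω, x', t, hx', ht, hω, hg', hxx, hun, hineq⟩ := ih (by omega)
      set k0 : Fin (M + 1) := ⟨j, by omega⟩ with hk0
      have hk0v : k0.val = j := rfl
      have hgk0 : g' k0 = g k0 := (hun k0 le_rfl).1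
      have htk0 : t k0 = 0 := (hun k0 le_rfl).2
      let R : Seminorm ℝ X := Seminorm.of
        (fun v => ∑ k ∈ Finset.univ.erase k0, coef θ N l j k.val * |g' k v|)
        (by
          intro v w
          rw [← Finset.sum_add_distrib]
          refine Finset.sum_le_sum fun k _ => ?_
          rw [← mul_add]
          refine mul_le_mul_of_nonneg_left ?_ (coef_nonneg hθ hn hlpos _ _)
          rw [map_add]; exact abs_add_le _ _)
        (by
          intro c v
          rw [Finset.mul_sum]
          refine Finset.sum_congr rfl fun k _ => ?_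
          rw [map_smul, smul_eq_mul, abs_mul, Real.norm_eq_abs]; ring)
      have hR : ∀ v, R v = ∑ k ∈ Finset.univ.erase k0, coef θ N l j k.val * |g' k v| := fun v => rfl
      have hck0 : coef θ N l j k0.val = θ * l ^ j := by
        unfold coef; rw [if_neg (by omega)]
      obtain ⟨g'', ω', x'', t', h1, h2, h3, h4, h5, h6, h7⟩ := hGD X
        (f + ∑ k, t k • (g k - ω k)) (g k0) R x' (e * a ^ j) (θ * l ^ j) σ N hx' (by positivity)
        (by positivity) hσ hσ1 hN (by
          intro y hy
          have := hineq y hy
          rw [← Finset.add_sum_erase Finset.univ (fun k : Fin (M + 1) =>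
            coef θ N l j k.val * |g' k (y - x')|) (Finset.mem_univ k0), hck0, hgk0] at this
          rw [hR]; linarith)
      have hC : 26 * (e * a ^ j / (θ * l ^ j)) / σ ≤ Cc := by
        have h8 : a / l = 54 / σ := by
          rw [ha, hl]; field_simp; norm_num
        have h9 : 26 * (e * a ^ j / (θ * l ^ j)) / σ = 26 * 54 ^ j * (e / θ) / σ ^ (j + 1) := by
          have : e * a ^ j / (θ * l ^ j) = (e / θ) * (a / l) ^ j := by
            rw [div_pow a l j, mul_div_mul_comm]
          rw [this, h8, div_pow, pow_succ, mul_comm (σ ^ j) σ, ← div_div, div_right_comm]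
          ring
        rw [h9, hCc]
        have hjM : j ≤ M := by omega
        apply div_le_div₀ (by positivity)
        · apply mul_le_mul_of_nonneg_right _ (by positivity)
          apply mul_le_mul_of_nonneg_left _ (by norm_num)
          exact pow_le_pow_right₀ (by norm_num) hjM
        · positivity
        · exact pow_le_pow_of_le_one hσ.le hσ1 (by omega)
      refine ⟨Function.update g' k0 g'', Function.update ω k0 ω', x'', Function.update t k0 t',
        h1, ?_, ?_, ?_, ?_, ?_, ?_⟩
      · intro k
        by_cases hk : k = k0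
        · subst hk
          rw [Function.update_self]
          refine ⟨h2, h3.trans ?_⟩
          have : l ^ j ≤ 1 := pow_le_one₀ hlpos.le hl1
          nlinarith
        · rw [Function.update_of_ne hk]; exact ht k
      · intro k
        by_cases hk : k = k0
        · subst hk
          rw [Function.update_self]
          exact h4.trans hC
        · rw [Function.update_of_ne hk]; exact hω k
      · intro k
        by_cases hk : k = k0
        · subst hk
          rw [Function.update_self]
          exact h5.trans hC
        · rw [Function.update_of_ne hk]; exact hg' k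
      · calc ‖x'' - x‖ = ‖(x'' - x') + (x' - x)‖ := by congr 1; abel
          _ ≤ ‖x'' - x'‖ + ‖x' - x‖ := norm_add_le _ _
          _ ≤ σ + j * σ := add_le_add h6 hxx
          _ = ((j + 1 : ℕ) : ℝ) * σ := by push_cast; ring
      · intro k hk
        have hne : k ≠ k0 := by
          intro he'
          rw [he', hk0v] at hk
          omega
        rw [Function.update_of_ne hne, Function.update_of_ne hne]
        exact hun k (by omega)
      · intro y hy
        have h10 := h7 y hy
        have hF : (f + ∑ k, (Function.update t k0 t') k • (g k - (Function.update ω k0 ω') k)) =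
            (f + ∑ k, t k • (g k - ω k)) + t' • (g k0 - ω') := by
          rw [← Finset.add_sum_erase Finset.univ (fun k =>
              (Function.update t k0 t') k • (g k - (Function.update ω k0 ω') k)) (Finset.mem_univ k0),
            ← Finset.add_sum_erase Finset.univ (fun k => t k • (g k - ω k)) (Finset.mem_univ k0)]
          simp only [Function.update_self, htk0, zero_smul, zero_add]
          have : ∑ k ∈ Finset.univ.erase k0,
              (Function.update t k0 t') k • (g k - (Function.update ω k0 ω') k) =
              ∑ k ∈ Finset.univ.erase k0, t k • (g k - ω k) := by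
            refine Finset.sum_congr rfl fun k hk => ?_
            have hne := Finset.ne_of_mem_erase hk
            rw [Function.update_of_ne hne, Function.update_of_ne hne]
          rw [this]; abel
        have hS : ∑ k : Fin (M + 1), coef θ N l (j + 1) k.val *
              |(Function.update g' k0 g'') k (y - x'')| =
            θ * l ^ j / (32 * N) * |g'' (y - x'')| + σ / (9 * (N : ℝ) ^ 2) * R (y - x'') := by
          rw [← Finset.add_sum_erase _ _ (Finset.mem_univ k0), Function.update_self, hR, ← hl,
            Finset.mul_sum]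
          congr 1
          · have : coef θ N l (j + 1) k0.val = θ * l ^ j / (32 * N) := by
              unfold coef
              rw [if_pos (by omega), Nat.add_sub_cancel]; ring
            rw [this]
          · refine Finset.sum_congr rfl fun k hk => ?_
            have hne := Finset.ne_of_mem_erase hk
            rw [Function.update_of_ne hne, coef_succ (fun h => hne (Fin.ext h))]
            ring
        have hE : e * a ^ (j + 1) = 6 * (e * a ^ j) / (N : ℝ) ^ 2 := by
          rw [pow_succ, ha]; ring
        rw [hF, hS, hE, ← add_assoc]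
        exact h10
  obtain ⟨g', ω, x', t, hx', ht, hω, hg', hxx, hun, hineq⟩ := key (M + 1) le_rfl
  refine ⟨g', ω, x', t, hx', ht, hω, hg', ?_, ?_⟩
  · have : ((M + 1 : ℕ) : ℝ) = (M : ℝ) + 1 := by push_cast; ring
    rw [← this]; exact hxx
  · intro y hy
    have := hineq y hy
    have hS : ∑ k : Fin (M + 1), coef θ N l (M + 1) k.val * |g' k (y - x')| =
        θ / (32 * N) * l ^ M * ∑ k, |g' k (y - x')| := by
      rw [Finset.mul_sum]
      refine Finset.sum_congr rfl fun k _ => ?_
      unfold coef
      rw [if_pos k.2, Nat.add_sub_cancel]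
    rw [hS] at this
    exact this

end Pool.Agent.Helper62.PB

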